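import Pool.Agent.Lib.MP_688fd0_co.SQ6.Iface

/-!
Row ORB (helper22).
-/

set_option autoImplicit false

namespace Pool.Agent.Lib.MP_688fd0_co.SQ6.H22

open Pool.Agent.Lib.MP_688fd0_co.SQ6

theorem orb : OrbS := by
  intro H _ _ C g T τ hC hg hT hT' hτ
  have hgC : g ∈ C := hg ▸ Subgroup.mem_zpowers g
  have hτT : ∀ t ∈ T, τ t ∈ T := by
    intro t ht
    by_contra h
    have h1 := hτ _ h
    have h2 := τ.injective h1
    exact h (by rw [h2]; exact ht)
  have F1 : ∀ x, x ∉ T → (Equiv.mulRight g * τ) x = x * g := by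
    intro x hx
    rw [Equiv.Perm.mul_apply, hτ x hx]
    rfl
  have step : ∀ i : ℕ, ∀ x t, t ∈ T → x * g ^ i = t → (Equiv.mulRight g * τ).SameCycle x t := by
    intro i
    induction i with
    | zero =>
      intro x t _ h
      rw [pow_zero, mul_one] at h
      rw [h]
    | succ i ih =>
      intro x t ht h
      by_cases hx : x ∈ T
      · have : x = t := by
          apply hT' x hx t ht
          rw [← h]
          have h1 : x * (x * g ^ (i + 1))⁻¹ = x * (g ^ (i + 1))⁻¹ * x⁻¹ := by group
          rw [h1]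
          exact hC.conj_mem _ (C.inv_mem (C.pow_mem hgC _)) x
        rw [this]
      · have h1 : (Equiv.mulRight g * τ).SameCycle (x * g) t := by
          apply ih _ _ ht
          rw [← h, pow_succ', mul_assoc]
        rw [← F1 x hx] at h1
        exact Equiv.Perm.sameCycle_apply_left.1 h1
  constructor
  · intro t ht
    have h1 : (Equiv.mulRight g * τ) t = τ t * g := rfl
    have h2 : (Equiv.mulRight g * τ).SameCycle (τ t * g) (τ t) := by
      apply step (orderOf g - 1) _ _ (hτT t ht)
      rw [mul_assoc, ← pow_succ', Nat.sub_add_cancel (orderOf_pos g), pow_orderOf_eq_one, mul_one]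
    rw [← h1] at h2
    exact Equiv.Perm.sameCycle_apply_left.1 h2
  · intro x
    obtain ⟨t, ht, h⟩ := hT x
    refine ⟨t, ht, ?_⟩
    have h1 : x⁻¹ * t ∈ C := by
      have := hC.conj_mem _ h x⁻¹
      have h2 : x⁻¹ * (t * x⁻¹) * x⁻¹⁻¹ = x⁻¹ * t := by group
      rwa [h2] at this
    rw [← hg] at h1
    obtain ⟨i, hi⟩ := (mem_powers_iff_mem_zpowers (x := g) (y := x⁻¹ * t)).2 h1
    refine (step i x t ht ?_).symm
    have hi' : g ^ i = x⁻¹ * t := hi
    rw [hi', mul_inv_cancel_left]

end Pool.Agent.Lib.MP_688fd0_co.SQ6.H22
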