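import Pool.Agent.Lib.MP_688fd0_co.SQ6.H22.Orb

/-!
Row DIH (helper22). `J = ⟨v²⟩ = ⟨w²⟩` is central in `⟨v, w⟩`; modulo `J C` the group is dihedral of order `n = 2 m`, generated
by the involutions `v`, `w`. With the letters `v, w, v⁻¹, w⁻¹, v, ..` the words `x 0 = 1, x 1 = v, x 2 = v w, ..` give the
transversal `T = ⋃ x i J` (`i < n`) of `C`, and the product `f` of the `n - 1` rotations by the letters on the cosets
`x i J ∪ x (i + 1) J` is `x i j → x (i + 1) j`, `x (n - 1) j → c j`, `c = v²` or `w²`: one orbit on `T`.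
-/

set_option autoImplicit false

namespace Pool.Agent.Lib.MP_688fd0_co.SQ6.H22

open Pool.Agent.Lib.MP_688fd0_co.SQ6

/-! ### Moves -/

section Mv

variable {H : Type} [Group H] {V : Set H}

theorem mv_one : Mv V 0 (1 : Equiv.Perm H) := ⟨[], le_rfl, by simp, rfl⟩

theorem mv_mul {a b : ℕ} {f g : Equiv.Perm H} (hf : Mv V a f) (hg : Mv V b g) : Mv V (a + b) (f * g) := by
  obtain ⟨l, h1, h2, h3⟩ := hf
  obtain ⟨l', h1', h2', h3'⟩ := hg
  refine ⟨l ++ l', by rw [List.length_append]; omega, ?_, by rw [List.prod_append, h3, h3']⟩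
  intro g hg
  rcases List.mem_append.1 hg with h | h
  · exact h2 g h
  · exact h2' g h

theorem mv_mono {a b : ℕ} {f : Equiv.Perm H} (hf : Mv V a f) (h : a ≤ b) : Mv V b f := by
  obtain ⟨l, h1, h2, h3⟩ := hf
  exact ⟨l, h1.trans h, h2, h3⟩

theorem mv_rot {v : H} (hv : v ∈ V) (X : Set H) (h : Cl v X) : Mv V 1 (rot v X h) :=
  ⟨[rot v X h], le_rfl, fun g hg => ⟨v, hv, X, h, by simpa using hg⟩, by simp⟩

theorem mv_pow {a : ℕ} {f : Equiv.Perm H} (hf : Mv V a f) (n : ℕ) : Mv V (n * a) (f ^ n) := by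
  induction n with
  | zero => simpa using mv_one
  | succ n ih =>
    rw [pow_succ]
    exact mv_mono (mv_mul ih hf) (by ring_nf; rfl)

theorem rot_mem {v : H} {X : Set H} (h : Cl v X) {x : H} (hx : x ∈ X) : rot v X h x = x * v := by
  simp only [rot, Equiv.coe_fn_mk, if_pos hx]

theorem rot_not {v : H} {X : Set H} (h : Cl v X) {x : H} (hx : x ∉ X) : rot v X h x = x := by
  simp only [rot, Equiv.coe_fn_mk, if_neg hx]

theorem cl_inv {v : H} {X : Set H} (h : Cl v X) (x : H) : x * v⁻¹ ∈ X ↔ x ∈ X := by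
  rw [← h (x * v⁻¹)]
  simp

theorem rot_inv_mem {v : H} {X : Set H} (h : Cl v X) {x : H} (hx : x ∈ X) : (rot v X h)⁻¹ x = x * v⁻¹ := by
  rw [Equiv.Perm.inv_eq_iff_eq, rot_mem h ((cl_inv h x).2 hx)]
  simp

theorem rot_inv_not {v : H} {X : Set H} (h : Cl v X) {x : H} (hx : x ∉ X) : (rot v X h)⁻¹ x = x := by
  rw [Equiv.Perm.inv_eq_iff_eq, rot_not h hx]

theorem rot_pow {v : H} {X : Set H} (h : Cl v X) (n : ℕ) (x : H) :
    (x ∈ X → ((rot v X h) ^ n) x = x * v ^ n) ∧ (x ∉ X → ((rot v X h) ^ n) x = x) := by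
  induction n with
  | zero => simp
  | succ n ih =>
    constructor
    · intro hx
      rw [pow_succ', Equiv.Perm.mul_apply, ih.1 hx]
      have h1 : x * v ^ n ∈ X := by
        clear ih
        induction n with
        | zero => simpa using hx
        | succ n ih' =>
          rw [pow_succ, ← mul_assoc, h]
          exact ih'
      rw [rot_mem h h1, pow_succ, mul_assoc]
    · intro hx
      rw [pow_succ', Equiv.Perm.mul_apply, ih.2 hx, rot_not h hx]

theorem mv_rot_inv [Finite H] {v : H} (hv : v ∈ V) (X : Set H) (h : Cl v X) : Mv V (orderOf v) (rot v X h)⁻¹ := by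
  have h1 : (rot v X h)⁻¹ = (rot v X h) ^ (orderOf v - 1) := by
    rw [inv_eq_iff_mul_eq_one, ← pow_succ', Nat.sub_add_cancel (orderOf_pos v)]
    ext x
    by_cases hx : x ∈ X
    · rw [(rot_pow h _ x).1 hx, pow_orderOf_eq_one]
      simp
    · rw [(rot_pow h _ x).2 hx]
      simp
  rw [h1]
  exact mv_mono (mv_pow (mv_rot hv X h) _) (by omega)

end Mv

/-! ### The letters -/

section Letters

variable {H : Type} [Group H]

/-- The letter of the edge `k`. -/
def vl (v w : H) (k : ℕ) : H := if k % 2 = 0 then v else w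

/-- The letter with its sign. -/
def yl (v w : H) (k : ℕ) : H := if k % 4 < 2 then vl v w k else (vl v w k)⁻¹

/-- The words. -/
def xl (v w : H) : ℕ → H
  | 0 => 1
  | k + 1 => xl v w k * yl v w k

/-- The products of the squares. -/
def cl (v w : H) : ℕ → H
  | 0 => 1
  | k + 1 => cl v w k * yl v w k ^ 2

/-- The coset of the edge `k`. -/
def Xl (v w : H) (k : ℕ) : Set H := {z | (xl v w k)⁻¹ * z ∈ Subgroup.zpowers (vl v w k)}

theorem Xl_cl (v w : H) (k : ℕ) : Cl (vl v w k) (Xl v w k) := by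
  intro z
  show (xl v w k)⁻¹ * (z * vl v w k) ∈ Subgroup.zpowers (vl v w k) ↔ (xl v w k)⁻¹ * z ∈ Subgroup.zpowers (vl v w k)
  rw [← mul_assoc]
  exact Subgroup.mul_mem_cancel_right _ (Subgroup.mem_zpowers _)

/-- The rotation of the edge `k`. -/
noncomputable def rl (v w : H) (k : ℕ) : Equiv.Perm H :=
  if k % 4 < 2 then rot (vl v w k) (Xl v w k) (Xl_cl v w k) else (rot (vl v w k) (Xl v w k) (Xl_cl v w k))⁻¹

theorem rl_mem {v w : H} {k : ℕ} {z : H} (hz : z ∈ Xl v w k) : rl v w k z = z * yl v w k := by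
  unfold rl yl
  split_ifs
  · exact rot_mem _ hz
  · exact rot_inv_mem _ hz

theorem rl_not {v w : H} {k : ℕ} {z : H} (hz : z ∉ Xl v w k) : rl v w k z = z := by
  unfold rl
  split_ifs
  · exact rot_not _ hz
  · exact rot_inv_not _ hz

/-- The product of the first `k` rotations. -/
noncomputable def Pl (v w : H) : ℕ → Equiv.Perm H
  | 0 => 1
  | k + 1 => Pl v w k * rl v w k

omit [Group H] in
theorem vl_mem {v w : H} {V : Set H} (hv : v ∈ V) (hw : w ∈ V) (k : ℕ) : vl v w k ∈ V := by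
  unfold vl
  split_ifs <;> assumption

theorem mv_Pl [Finite H] {v w : H} {V : Set H} (hv : v ∈ V) (hw : w ∈ V) {M : ℕ} (h1 : orderOf v ≤ M)
    (h2 : orderOf w ≤ M) : ∀ k, Mv V (k * M) (Pl v w k) := by
  have h3 : ∀ k, orderOf (vl v w k) ≤ M := by
    intro k
    unfold vl
    split_ifs <;> assumption
  intro k
  induction k with
  | zero =>
    rw [zero_mul]
    exact mv_one
  | succ k ih =>
    refine mv_mono (mv_mul ih (b := M) ?_) (by ring_nf; rfl)
    unfold rl
    split_ifs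
    · exact mv_mono (mv_rot (vl_mem hv hw k) _ _) ((orderOf_pos _).trans_le (h3 k))
    · exact mv_mono (mv_rot_inv (vl_mem hv hw k) _ _) (h3 k)

end Letters

/-! ### The main computation -/

section Main

variable {H : Type} [Group H] [Finite H] {v w : H}

/-- The hypotheses on `v`, `w` and `J`. -/
structure Sq (v w : H) (J : Subgroup H) : Prop where
  cv : ∀ j ∈ J, j * v = v * j
  cw : ∀ j ∈ J, j * w = w * j
  jv : J ≤ Subgroup.zpowers v
  jw : J ≤ Subgroup.zpowers w
  v2 : v ^ 2 ∈ J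
  w2 : w ^ 2 ∈ J

variable {J : Subgroup H}

omit [Finite H] in
theorem Sq.vl2 (h : Sq v w J) (k : ℕ) : vl v w k ^ 2 ∈ J := by
  unfold vl
  split_ifs
  · exact h.v2
  · exact h.w2

omit [Finite H] in
theorem Sq.yl2 (h : Sq v w J) (k : ℕ) : yl v w k ^ 2 ∈ J := by
  unfold yl
  split_ifs
  · exact h.vl2 k
  · rw [inv_pow]
    exact J.inv_mem (h.vl2 k)

omit [Finite H] in
theorem Sq.cvl (h : Sq v w J) (k : ℕ) {j : H} (hj : j ∈ J) : j * vl v w k = vl v w k * j := by
  unfold vl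
  split_ifs
  · exact h.cv j hj
  · exact h.cw j hj

omit [Finite H] in
theorem Sq.cyl (h : Sq v w J) (k : ℕ) {j : H} (hj : j ∈ J) : j * yl v w k = yl v w k * j := by
  unfold yl
  split_ifs
  · exact h.cvl k hj
  · have h1 : Commute j (vl v w k) := h.cvl k hj
    exact h1.inv_right

omit [Finite H] in
theorem Sq.jvl (h : Sq v w J) (k : ℕ) : J ≤ Subgroup.zpowers (vl v w k) := by
  unfold vl
  split_ifs
  · exact h.jv
  · exact h.jw

omit [Finite H] in
theorem yl_mem (v w : H) (k : ℕ) : yl v w k ∈ Subgroup.zpowers (vl v w k) := by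
  unfold yl
  split_ifs
  · exact Subgroup.mem_zpowers _
  · exact Subgroup.inv_mem _ (Subgroup.mem_zpowers _)

omit [Finite H] in
theorem Sq.mem_Xl (h : Sq v w J) (k : ℕ) (z : H) :
    z ∈ Xl v w k ↔ (∃ j ∈ J, z = xl v w k * j) ∨ ∃ j ∈ J, z = xl v w (k + 1) * j := by
  constructor
  · rintro ⟨a, ha⟩
    change vl v w k ^ a = (xl v w k)⁻¹ * z at ha
    have hz : z = xl v w k * vl v w k ^ a := by rw [ha]; group
    rcases Int.even_or_odd' a with ⟨b, hb | hb⟩
    · left
      refine ⟨(vl v w k ^ 2) ^ b, J.zpow_mem (h.vl2 k) b, ?_⟩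
      rw [hz, hb, zpow_mul]
      norm_cast
    · right
      have h1 : z = xl v w k * vl v w k * (vl v w k ^ 2) ^ b := by
        rw [hz, hb, add_comm, zpow_add, zpow_one, zpow_mul, mul_assoc]
        norm_cast
      rcases Nat.lt_or_ge (k % 4) 2 with h2 | h2
      · refine ⟨(vl v w k ^ 2) ^ b, J.zpow_mem (h.vl2 k) b, ?_⟩
        rw [h1]
        simp only [xl, yl, if_pos h2]
      · refine ⟨vl v w k ^ 2 * (vl v w k ^ 2) ^ b, J.mul_mem (h.vl2 k) (J.zpow_mem (h.vl2 k) b), ?_⟩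
        rw [h1]
        simp only [xl, yl, if_neg (not_lt.2 h2)]
        generalize (vl v w k ^ 2) ^ b = P
        rw [pow_two]
        group
  · rintro (⟨j, hj, rfl⟩ | ⟨j, hj, rfl⟩)
    · change (xl v w k)⁻¹ * (xl v w k * j) ∈ Subgroup.zpowers (vl v w k)
      rw [inv_mul_cancel_left]
      exact h.jvl k hj
    · change (xl v w k)⁻¹ * (xl v w (k + 1) * j) ∈ Subgroup.zpowers (vl v w k)
      simp only [xl]
      rw [mul_assoc, inv_mul_cancel_left]
      exact Subgroup.mul_mem _ (yl_mem v w k) (h.jvl k hj)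

omit [Finite H] in
/-- The action of the product of the rotations. -/
theorem Sq.act (h : Sq v w J) {n : ℕ}
    (hinj : ∀ i l, i < n → l < n → ∀ j ∈ J, ∀ j' ∈ J, xl v w i * j = xl v w l * j' → i = l) :
    ∀ k, k < n →
      (∀ i, i < k → ∀ j ∈ J, Pl v w k (xl v w i * j) = xl v w (i + 1) * j) ∧
      (∀ j ∈ J, Pl v w k (xl v w k * j) = cl v w k * j) ∧
      (∀ z, (∀ i ≤ k, ∀ j ∈ J, z ≠ xl v w i * j) → Pl v w k z = z) := by
  intro k
  induction k with
  | zero =>
    intro _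
    refine ⟨fun i hi => absurd hi (Nat.not_lt_zero _), fun j _ => rfl, fun z _ => rfl⟩
  | succ k ih =>
    intro hk
    obtain ⟨ha, hb, hc⟩ := ih (by omega)
    refine ⟨?_, ?_, ?_⟩
    · intro i hi j hj
      change Pl v w k (rl v w k (xl v w i * j)) = _
      rcases Nat.lt_or_ge i k with h1 | h1
      · rw [rl_not, ha i h1 j hj]
        intro h2
        rcases (h.mem_Xl k _).1 h2 with ⟨j', hj', h3⟩ | ⟨j', hj', h3⟩
        · have := hinj i k (by omega) (by omega) j hj j' hj' h3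
          omega
        · have := hinj i (k + 1) (by omega) hk j hj j' hj' h3
          omega
      · have h2 : i = k := by omega
        subst h2
        rw [rl_mem ((h.mem_Xl i _).2 (Or.inl ⟨j, hj, rfl⟩)), mul_assoc, h.cyl i hj, ← mul_assoc]
        change Pl v w i (xl v w (i + 1) * j) = _
        apply hc
        intro l hl j' hj' h3
        have := hinj (i + 1) l hk (by omega) j hj j' hj' h3
        omega
    · intro j hj
      change Pl v w k (rl v w k (xl v w (k + 1) * j)) = _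
      rw [rl_mem ((h.mem_Xl k _).2 (Or.inr ⟨j, hj, rfl⟩))]
      have h1 : xl v w (k + 1) * j * yl v w k = xl v w k * (yl v w k ^ 2 * j) := by
        rw [mul_assoc, h.cyl k hj]
        simp only [xl]
        rw [pow_two]
        group
      rw [h1, hb _ (J.mul_mem (h.yl2 k) hj)]
      simp only [cl]
      group
    · intro z hz
      change Pl v w k (rl v w k z) = z
      rw [rl_not, hc]
      · exact fun i hi => hz i (by omega)
      · intro h2
        rcases (h.mem_Xl k _).1 h2 with ⟨j', hj', h3⟩ | ⟨j', hj', h3⟩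
        · exact hz k (by omega) j' hj' h3
        · exact hz (k + 1) le_rfl j' hj' h3

omit [Finite H] in
theorem yl_four (v w : H) (k : ℕ) : yl v w (k + 4) = yl v w k := by
  unfold yl vl
  rw [show (k + 4) % 4 = k % 4 by omega, show (k + 4) % 2 = k % 2 by omega]

omit [Finite H] in
theorem Sq.cl_four (h : Sq v w J) (k : ℕ) : cl v w (k + 4) = cl v w k := by
  induction k with
  | zero =>
    have h1 : v ^ 2 * w ^ 2 = w ^ 2 * v ^ 2 := by
      have h2 : Commute (v ^ 2) w := h.cw _ h.v2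
      exact (h2.pow_right 2)
    simp only [cl, yl, vl]
    norm_num
    rw [h1]
    group
  | succ k ih =>
    show cl v w (k + 4) * yl v w (k + 4) ^ 2 = cl v w k * yl v w k ^ 2
    rw [ih, yl_four]

omit [Finite H] in
/-- For odd `k` the product of the squares is `v²` or `w²`. -/
theorem Sq.cl_odd (h : Sq v w J) (m : ℕ) : cl v w (2 * m + 1) = v ^ 2 ∨ cl v w (2 * m + 1) = w ^ 2 := by
  have h0 : cl v w 1 = v ^ 2 := by simp [cl, yl, vl]
  have h1 : cl v w 3 = w ^ 2 := by
    have h1 : v ^ 2 * w ^ 2 = w ^ 2 * v ^ 2 := by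
      have h2 : Commute (v ^ 2) w := h.cw _ h.v2
      exact (h2.pow_right 2)
    simp only [cl, yl, vl]
    norm_num
    rw [h1]
    group
  have key : ∀ b, cl v w (2 * (2 * b) + 1) = v ^ 2 ∧ cl v w (2 * (2 * b + 1) + 1) = w ^ 2 := by
    intro b
    induction b with
    | zero => exact ⟨h0, h1⟩
    | succ b ih =>
      constructor
      · have := h.cl_four (2 * (2 * b) + 1)
        rw [show 2 * (2 * b) + 1 + 4 = 2 * (2 * (b + 1)) + 1 by ring] at this
        rw [this, ih.1]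
      · have := h.cl_four (2 * (2 * b + 1) + 1)
        rw [show 2 * (2 * b + 1) + 1 + 4 = 2 * (2 * (b + 1) + 1) + 1 by ring] at this
        rw [this, ih.2]
  rcases Nat.even_or_odd' m with ⟨b, rfl | rfl⟩
  · exact Or.inl (key b).1
  · exact Or.inr (key b).2

end Main

/-! ### The dihedral quotient -/

section Quo

variable {H Q : Type} [Group H] [Group Q] {v w : H} (φ : H →* Q)

theorem phi_yl (hv : φ v ^ 2 = 1) (hw : φ w ^ 2 = 1) (k : ℕ) : φ (yl v w k) = φ (vl v w k) := by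
  have h1 : φ (vl v w k) ^ 2 = 1 := by
    unfold vl
    split_ifs <;> assumption
  unfold yl
  split_ifs
  · rfl
  · rw [map_inv, inv_eq_iff_mul_eq_one, ← pow_two, h1]

theorem phi_xl (hv : φ v ^ 2 = 1) (hw : φ w ^ 2 = 1) (a : ℕ) :
    φ (xl v w (2 * a)) = (φ v * φ w) ^ a ∧ φ (xl v w (2 * a + 1)) = (φ v * φ w) ^ a * φ v := by
  have h0 : ∀ a, φ (xl v w (2 * a)) = (φ v * φ w) ^ a → φ (xl v w (2 * a + 1)) = (φ v * φ w) ^ a * φ v := by
    intro a h
    show φ (xl v w (2 * a) * yl v w (2 * a)) = _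
    rw [map_mul, h, phi_yl φ hv hw]
    have : vl v w (2 * a) = v := by simp [vl]
    rw [this]
  induction a with
  | zero =>
    have h1 : φ (xl v w (2 * 0)) = (φ v * φ w) ^ 0 := by simp [xl]
    exact ⟨h1, h0 0 h1⟩
  | succ a ih =>
    have h1 : φ (xl v w (2 * (a + 1))) = (φ v * φ w) ^ (a + 1) := by
      show φ (xl v w (2 * a + 1) * yl v w (2 * a + 1)) = _
      rw [map_mul, ih.2, phi_yl φ hv hw]
      have : vl v w (2 * a + 1) = w := by simp [vl]
      rw [this, pow_succ, mul_assoc]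
    exact ⟨h1, h0 _ h1⟩

theorem phi_inj [Finite Q] (hv : φ v ^ 2 = 1) (hw : φ w ^ 2 = 1) (hv1 : φ v ≠ 1) (hw1 : φ w ≠ 1) :
    ∀ i l, i < 2 * orderOf (φ v * φ w) → l < 2 * orderOf (φ v * φ w) → φ (xl v w i) = φ (xl v w l) → i = l := by
  have key : ∀ a b : ℕ, (φ v * φ w) ^ a ≠ (φ v * φ w) ^ b * φ v := by
    intro a b h
    have h1 : φ v = (φ v * φ w) ^ ((a : ℤ) - b) := by
      rw [zpow_sub, zpow_natCast, zpow_natCast, h]
      have : Commute ((φ v * φ w) ^ b * φ v) ((φ v * φ w) ^ b)⁻¹ := by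
        rw [← h]
        exact ((Commute.refl _).pow_pow a b).inv_right
      rw [this.eq, inv_mul_cancel_left]
    have h2 : Commute (φ v) (φ v * φ w) := by
      have h3 : Commute ((φ v * φ w) ^ ((a : ℤ) - b)) (φ v * φ w) := (Commute.refl _).zpow_left _
      rwa [← h1] at h3
    have h3 : φ w = φ v * φ w * φ v := by
      have h4 := h2.eq
      rw [← mul_assoc, ← pow_two, hv, one_mul] at h4
      exact h4
    have h4 : (φ v * φ w) ^ 2 = 1 := by
      rw [pow_two, ← mul_assoc, ← h3, ← pow_two, hw]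
    rcases Int.even_or_odd' ((a : ℤ) - b) with ⟨c, hc | hc⟩
    · rw [hc, zpow_mul] at h1
      have h5 : (φ v * φ w) ^ (2 : ℤ) = 1 := by
        rw [← h4]
        norm_cast
      rw [h5, one_zpow] at h1
      exact hv1 h1
    · rw [hc, zpow_add, zpow_mul, zpow_one] at h1
      have h5 : (φ v * φ w) ^ (2 : ℤ) = 1 := by
        rw [← h4]
        norm_cast
      rw [h5, one_zpow, one_mul] at h1
      exact hw1 (mul_left_cancel (a := φ v) (by rw [mul_one]; exact h1.symm))
  have inj : ∀ a b, a < orderOf (φ v * φ w) → b < orderOf (φ v * φ w) → (φ v * φ w) ^ a = (φ v * φ w) ^ b → a = b :=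
    fun a b ha hb h => pow_injOn_Iio_orderOf ha hb h
  intro i l hi hl h
  rcases Nat.even_or_odd' i with ⟨a, rfl | rfl⟩ <;> rcases Nat.even_or_odd' l with ⟨b, rfl | rfl⟩
  · rw [(phi_xl φ hv hw a).1, (phi_xl φ hv hw b).1] at h
    rw [inj a b (by omega) (by omega) h]
  · rw [(phi_xl φ hv hw a).1, (phi_xl φ hv hw b).2] at h
    exact absurd h (key a b)
  · rw [(phi_xl φ hv hw a).2, (phi_xl φ hv hw b).1] at h
    exact absurd h.symm (key b a)
  · rw [(phi_xl φ hv hw a).2, (phi_xl φ hv hw b).2] at h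
    rw [inj a b (by omega) (by omega) (mul_right_cancel h)]

theorem phi_surj [Finite Q] (hv : φ v ^ 2 = 1) (hw : φ w ^ 2 = 1) (hgen : Subgroup.closure {φ v, φ w} = ⊤) (q : Q) :
    ∃ i < 2 * orderOf (φ v * φ w), φ (xl v w i) = q := by
  classical
  have hvi : (φ v)⁻¹ = φ v := by rw [inv_eq_iff_mul_eq_one, ← pow_two, hv]
  have hwi : (φ w)⁻¹ = φ w := by rw [inv_eq_iff_mul_eq_one, ← pow_two, hw]
  have hstep : ∀ q y, y ∈ ({φ v, φ w} : Set Q) →
      (∃ a : ℤ, q = (φ v * φ w) ^ a ∨ q = (φ v * φ w) ^ a * φ v) →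
      ∃ a : ℤ, q * y = (φ v * φ w) ^ a ∨ q * y = (φ v * φ w) ^ a * φ v := by
    rintro q y hy ⟨a, h | h⟩
    · rcases hy with rfl | hy
      · exact ⟨a, Or.inr (by rw [h])⟩
      · have hy' : y = φ w := hy
        refine ⟨a - 1, Or.inr ?_⟩
        rw [h, hy', zpow_sub_one, mul_inv_rev, hwi, hvi, mul_assoc, mul_assoc, ← pow_two, hv, mul_one]
    · rcases hy with rfl | hy
      · exact ⟨a, Or.inl (by rw [h, mul_assoc, ← pow_two, hv, mul_one])⟩
      · have hy' : y = φ w := hy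
        exact ⟨a + 1, Or.inl (by rw [h, hy', zpow_add_one, mul_assoc])⟩
  have hall : ∃ a : ℤ, q = (φ v * φ w) ^ a ∨ q = (φ v * φ w) ^ a * φ v := by
    have hq : q ∈ Subgroup.closure {φ v, φ w} := by rw [hgen]; trivial
    refine Subgroup.closure_induction_right
      (p := fun q _ => ∃ a : ℤ, q = (φ v * φ w) ^ a ∨ q = (φ v * φ w) ^ a * φ v) ?_ ?_ ?_ hq
    · exact ⟨0, Or.inl (by simp)⟩
    · intro x _ y hy h
      exact hstep x y hy h
    · intro x _ y hy h
      have : y⁻¹ = y := by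
        rcases hy with rfl | hy
        · exact hvi
        · have hy' : y = φ w := hy
          rw [hy', hwi]
      rw [this]
      exact hstep x y hy h
  obtain ⟨a, ha⟩ := hall
  obtain ⟨b, hb, hb'⟩ : ∃ b < orderOf (φ v * φ w), (φ v * φ w) ^ b = (φ v * φ w) ^ a := by
    have h1 : (φ v * φ w) ^ a ∈ Subgroup.zpowers (φ v * φ w) := ⟨a, rfl⟩
    have h2 := (isOfFinOrder_of_finite (φ v * φ w)).mem_zpowers_iff_mem_range_orderOf.1 h1
    rw [Finset.mem_image] at h2
    obtain ⟨b, hb, hb'⟩ := h2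
    exact ⟨b, Finset.mem_range.1 hb, hb'⟩
  rcases ha with ha | ha
  · exact ⟨2 * b, by omega, by rw [(phi_xl φ hv hw b).1, hb', ha]⟩
  · exact ⟨2 * b + 1, by omega, by rw [(phi_xl φ hv hw b).2, hb', ha]⟩

end Quo

/-! ### The orbit -/

section Core

variable {H : Type} [Group H] [Finite H] {v w : H} {J : Subgroup H}

theorem core (hS : Sq v w J) {C K : Subgroup H} (hC : C.Normal) [K.Normal] {g : H} (hg : Subgroup.zpowers g = C)
    (hJK : J ≤ K) (hCK : C ≤ K) (hK : ∀ x ∈ K, ∃ j ∈ J, j⁻¹ * x ∈ C) (hJC : ∀ x ∈ J, x ∈ C → x = 1) (hv : v ∉ K)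
    (hw : w ∉ K) (hgen : Subgroup.closure {v, w} ⊔ C = ⊤) (hJv : J ≤ Subgroup.zpowers (v ^ 2))
    (hJw : J ≤ Subgroup.zpowers (w ^ 2)) :
    Two (Equiv.mulRight g *
      Pl v w (2 * orderOf (QuotientGroup.mk' K v * QuotientGroup.mk' K w) - 1)) := by
  set φ := QuotientGroup.mk' K with hφ
  set m := orderOf (φ v * φ w) with hm
  have hm0 : 0 < m := orderOf_pos _
  have ker : ∀ x, φ x = 1 ↔ x ∈ K := fun x => by rw [hφ, ← MonoidHom.mem_ker, QuotientGroup.ker_mk']
  have hv2 : φ v ^ 2 = 1 := by rw [← map_pow, ker]; exact hJK hS.v2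
  have hw2 : φ w ^ 2 = 1 := by rw [← map_pow, ker]; exact hJK hS.w2
  have hv1 : φ v ≠ 1 := fun h => hv ((ker v).1 h)
  have hw1 : φ w ≠ 1 := fun h => hw ((ker w).1 h)
  have hgen' : Subgroup.closure {φ v, φ w} = ⊤ := by
    have h1 : (Subgroup.closure {v, w} ⊔ C).map φ = ⊤ := by
      rw [hgen]
      exact Subgroup.map_top_of_surjective φ (QuotientGroup.mk'_surjective K)
    rw [Subgroup.map_sup, MonoidHom.map_closure, Set.image_pair] at h1
    have h2 : C.map φ = ⊥ := by
      rw [eq_bot_iff]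
      rintro _ ⟨c, hc, rfl⟩
      exact (ker c).2 (hCK hc)
    rwa [h2, sup_bot_eq] at h1
  have inj := phi_inj φ hv2 hw2 hv1 hw1
  have hφj : ∀ i, ∀ j ∈ J, φ (xl v w i * j) = φ (xl v w i) := by
    intro i j hj
    rw [map_mul, (ker j).2 (hJK hj), mul_one]
  have hinj : ∀ i l, i < 2 * m → l < 2 * m → ∀ j ∈ J, ∀ j' ∈ J, xl v w i * j = xl v w l * j' → i = l := by
    intro i l hi hl j hj j' hj' h
    apply inj i l hi hl
    rw [← hφj i j hj, ← hφj l j' hj', h]
  obtain ⟨aa, ab, ac⟩ := hS.act hinj (2 * m - 1) (by omega)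
  -- the transversal
  have orbT := orb H C g {t | ∃ i < 2 * m, ∃ j ∈ J, t = xl v w i * j} (Pl v w (2 * m - 1)) hC hg
    (by
      intro x
      obtain ⟨i, hi, hx⟩ := phi_surj φ hv2 hw2 hgen' (φ x)
      have h1 : (xl v w i)⁻¹ * x ∈ K := by
        rw [← ker, map_mul, map_inv, hx, inv_mul_cancel]
      obtain ⟨j, hj, h2⟩ := hK _ h1
      refine ⟨xl v w i * j, ⟨i, hi, j, hj, rfl⟩, ?_⟩
      have h3 := hC.conj_mem _ (C.inv_mem h2) (xl v w i * j)
      have h4 : xl v w i * j * (j⁻¹ * ((xl v w i)⁻¹ * x))⁻¹ * (xl v w i * j)⁻¹ = xl v w i * j * x⁻¹ := by group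
      rwa [h4] at h3)
    (by
      rintro _ ⟨i, hi, j, hj, rfl⟩ _ ⟨l, hl, j', hj', rfl⟩ h
      have h1 : φ (xl v w i * j) = φ (xl v w l * j') := by
        have h2 := (ker _).2 (hCK h)
        rw [map_mul, map_inv, mul_inv_eq_one] at h2
        exact h2
      rw [hφj i j hj, hφj l j' hj'] at h1
      have h2 := inj i l hi hl h1
      subst h2
      have h3 := hC.conj_mem _ h (xl v w i)⁻¹
      have h4 : (xl v w i)⁻¹ * (xl v w i * j * (xl v w i * j')⁻¹) * (xl v w i)⁻¹⁻¹ = j * j'⁻¹ := by group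
      rw [h4] at h3
      have h5 := hJC _ (J.mul_mem hj (J.inv_mem hj')) h3
      rw [mul_inv_eq_one] at h5
      rw [h5])
    (by
      intro x hx
      apply ac
      rintro i hi j hj rfl
      exact hx ⟨i, by omega, j, hj, rfl⟩)
  obtain ⟨o1, o2⟩ := orbT
  set F := Equiv.mulRight g * Pl v w (2 * m - 1) with hF
  have s1 : ∀ j ∈ J, ∀ i < 2 * m, F.SameCycle j (xl v w i * j) := by
    intro j hj i
    induction i with
    | zero =>
      intro _
      have : xl v w 0 * j = j := one_mul j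
      rw [this]
    | succ i ih =>
      intro hi
      have h1 := o1 _ ⟨i, by omega, j, hj, rfl⟩
      rw [aa i (by omega) j hj] at h1
      exact (ih (by omega)).trans h1
  have s2 : ∀ j ∈ J, F.SameCycle j (cl v w (2 * m - 1) * j) := by
    intro j hj
    have h1 := o1 _ ⟨2 * m - 1, by omega, j, hj, rfl⟩
    rw [ab j hj] at h1
    exact (s1 j hj _ (by omega)).trans h1
  have hc : cl v w (2 * m - 1) = v ^ 2 ∨ cl v w (2 * m - 1) = w ^ 2 := by
    have := hS.cl_odd (m - 1)
    rwa [show 2 * (m - 1) + 1 = 2 * m - 1 by omega] at this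
  have hcJ : cl v w (2 * m - 1) ∈ J := by
    rcases hc with h | h <;> rw [h]
    · exact hS.v2
    · exact hS.w2
  have hJc : J ≤ Subgroup.zpowers (cl v w (2 * m - 1)) := by
    rcases hc with h | h <;> rw [h]
    · exact hJv
    · exact hJw
  have s3 : ∀ n : ℕ, F.SameCycle 1 (cl v w (2 * m - 1) ^ n) := by
    intro n
    induction n with
    | zero => rw [pow_zero]
    | succ n ih =>
      have h1 := s2 _ (J.pow_mem hcJ n)
      rw [← pow_succ'] at h1
      exact ih.trans h1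
  have s4 : ∀ j ∈ J, F.SameCycle 1 j := by
    intro j hj
    obtain ⟨n, hn⟩ := (mem_powers_iff_mem_zpowers (x := cl v w (2 * m - 1)) (y := j)).2 (hJc hj)
    have hn' : cl v w (2 * m - 1) ^ n = j := hn
    rw [← hn']
    exact s3 n
  refine ⟨1, 1, fun z => Or.inl ?_⟩
  obtain ⟨t, ⟨i, hi, j, hj, rfl⟩, h2⟩ := o2 z
  exact ((s4 j hj).trans (s1 j hj i hi)).trans h2

end Core

/-! ### The row -/

theorem dih : DihS := by
  intro H _ _ V C g v w hC hg hcop hv hw hgen hvn hwn hv2 hw2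
  have hvn' : v ∉ Subgroup.zpowers w := fun h => hvn (Subgroup.mem_sup_left h)
  have hwn' : w ∉ Subgroup.zpowers v := fun h => hwn (Subgroup.mem_sup_left h)
  -- `w ^ 2 ∈ ⟨v ^ 2⟩`
  have gen2 : ∀ a b : H, a ^ 2 ∈ Subgroup.zpowers b → b ^ 2 ∈ Subgroup.zpowers a → a ∉ Subgroup.zpowers b →
      b ^ 2 ∈ Subgroup.zpowers (a ^ 2) := by
    rintro a b h1 ⟨k, hk⟩ h3
    have hk' : a ^ k = b ^ 2 := hk
    rcases Int.even_or_odd' k with ⟨l, hl | hl⟩
    · refine ⟨l, ?_⟩
      show (a ^ 2) ^ l = b ^ 2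
      rw [← hk', hl, zpow_mul]
      norm_cast
    · exfalso
      apply h3
      have h4 : a = b ^ 2 * ((a ^ 2) ^ l)⁻¹ := by
        rw [← hk', hl, zpow_add, zpow_mul, zpow_one]
        have h5 : (a ^ (2 : ℤ)) ^ l = (a ^ 2) ^ l := by norm_cast
        rw [h5]
        have h6 : Commute a ((a ^ 2) ^ l) := ((Commute.refl a).pow_right 2).zpow_right l
        rw [← h6.eq, mul_inv_cancel_right]
      rw [h4]
      exact Subgroup.mul_mem _ (Subgroup.pow_mem _ (Subgroup.mem_zpowers b) 2)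
        (Subgroup.inv_mem _ (Subgroup.zpow_mem _ h1 l))
  have hw2' : w ^ 2 ∈ Subgroup.zpowers (v ^ 2) := gen2 v w hv2 hw2 hvn'
  have hv2' : v ^ 2 ∈ Subgroup.zpowers (w ^ 2) := gen2 w v hw2 hv2 hwn'
  have hJJ : Subgroup.zpowers (v ^ 2) ≤ Subgroup.zpowers (w ^ 2) := by
    rw [Subgroup.zpowers_le]
    exact hv2'
  have cyc : ∀ (a b : H), b ∈ Subgroup.zpowers a → ∀ j ∈ Subgroup.zpowers b, j * a = a * j := by
    rintro a b ⟨k, rfl⟩ j ⟨l, rfl⟩
    exact (((Commute.refl a).zpow_left k).zpow_left l).eq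
  have hS : Sq v w (Subgroup.zpowers (v ^ 2)) :=
    { cv := cyc v (v ^ 2) (Subgroup.pow_mem _ (Subgroup.mem_zpowers v) 2)
      cw := fun j hj => cyc w (w ^ 2) (Subgroup.pow_mem _ (Subgroup.mem_zpowers w) 2) j (hJJ hj)
      jv := by
        rw [Subgroup.zpowers_le]
        exact Subgroup.pow_mem _ (Subgroup.mem_zpowers v) 2
      jw := by
        rw [Subgroup.zpowers_le]
        exact hv2
      v2 := Subgroup.mem_zpowers _
      w2 := hw2' }
  haveI : C.Normal := hC
  -- `K = J C`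
  set π := QuotientGroup.mk' C with hπ
  have kerπ : ∀ x, π x = 1 ↔ x ∈ C := fun x => by rw [hπ, ← MonoidHom.mem_ker, QuotientGroup.ker_mk']
  have hgenπ : Subgroup.closure {π v, π w} = ⊤ := by
    have h1 : (Subgroup.closure {v, w} ⊔ C).map π = ⊤ := by
      rw [hgen]
      exact Subgroup.map_top_of_surjective π (QuotientGroup.mk'_surjective C)
    rw [Subgroup.map_sup, MonoidHom.map_closure, Set.image_pair] at h1
    have h2 : C.map π = ⊥ := by
      rw [eq_bot_iff]
      rintro _ ⟨c, hc, rfl⟩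
      exact (kerπ c).2 hc
    rwa [h2, sup_bot_eq] at h1
  have hcen : Subgroup.zpowers (π (v ^ 2)) ≤ Subgroup.center (H ⧸ C) := by
    rw [Subgroup.zpowers_le, Subgroup.mem_center_iff]
    intro q
    have hq : q ∈ Subgroup.closure {π v, π w} := by rw [hgenπ]; trivial
    have h1 : Subgroup.closure {π v, π w} ≤ Subgroup.centralizer {π (v ^ 2)} := by
      rw [Subgroup.closure_le]
      rintro y (rfl | hy)
      · show π v ∈ Subgroup.centralizer {π (v ^ 2)}
        rw [Subgroup.mem_centralizer_iff]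
        rintro _ rfl
        rw [← map_mul, ← map_mul, hS.cv _ hS.v2]
      · have hy' : y = π w := hy
        show y ∈ Subgroup.centralizer {π (v ^ 2)}
        rw [hy', Subgroup.mem_centralizer_iff]
        rintro _ rfl
        rw [← map_mul, ← map_mul, hS.cw _ hS.v2]
    have h2 := Subgroup.mem_centralizer_iff.1 (h1 hq) _ rfl
    exact h2.symm
  haveI hJn : (Subgroup.zpowers (π (v ^ 2))).Normal := by
    refine ⟨fun n hn q => ?_⟩
    have h1 := Subgroup.mem_center_iff.1 (hcen hn) q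
    rw [h1, mul_inv_cancel_right]
    exact hn
  set K := (Subgroup.zpowers (π (v ^ 2))).comap π with hK
  haveI : K.Normal := hJn.comap π
  have hJK : Subgroup.zpowers (v ^ 2) ≤ K := by
    rw [Subgroup.zpowers_le]
    exact Subgroup.mem_zpowers _
  have hCK : C ≤ K := by
    intro c hc
    show π c ∈ Subgroup.zpowers (π (v ^ 2))
    rw [(kerπ c).2 hc]
    exact Subgroup.one_mem _
  have hKJ : ∀ x ∈ K, ∃ j ∈ Subgroup.zpowers (v ^ 2), j⁻¹ * x ∈ C := by
    rintro x ⟨k, hk⟩
    have hk' : π (v ^ 2) ^ k = π x := hk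
    refine ⟨(v ^ 2) ^ k, ⟨k, rfl⟩, ?_⟩
    rw [← kerπ, map_mul, map_inv, map_zpow, hk', inv_mul_cancel]
  have hKs : ∀ a : H, Subgroup.zpowers (v ^ 2) ≤ Subgroup.zpowers a → K ≤ Subgroup.zpowers a ⊔ C := by
    intro a ha x hx
    obtain ⟨j, hj, h1⟩ := hKJ x hx
    have : x = j * (j⁻¹ * x) := by group
    rw [this]
    exact Subgroup.mul_mem_sup (ha hj) h1
  have copC : ∀ x ∈ Subgroup.zpowers v, x ∈ C → x = 1 := by
    intro x hx hxC
    rw [← orderOf_eq_one_iff]
    have h1 : orderOf x ∣ orderOf v := orderOf_dvd_of_mem_zpowers hx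
    have h2 : orderOf x ∣ Nat.card C := by
      have h3 := orderOf_dvd_natCard (⟨x, hxC⟩ : C)
      rwa [Subgroup.orderOf_mk] at h3
    exact Nat.dvd_one.1 (by
      have h3 := Nat.dvd_gcd h1 h2
      rwa [(hcop v hv).gcd_eq_one] at h3)
  have res := core hS hC hg hJK hCK hKJ (fun x hx => copC x (hS.jv hx)) (fun h => hvn (hKs w hS.jw h))
    (fun h => hwn (hKs v hS.jv h)) hgen le_rfl hJJ
  -- the bound
  have hord : ∀ a ∈ V, orderOf a ≤ C.index := by
    intro a ha
    have h1 : orderOf a = orderOf (π a) := by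
      apply Nat.dvd_antisymm
      · rw [orderOf_dvd_iff_pow_eq_one, ← orderOf_eq_one_iff]
        have h2 : a ^ orderOf (π a) ∈ C := by
          rw [← kerπ, map_pow, pow_orderOf_eq_one]
        have h3 : orderOf (a ^ orderOf (π a)) ∣ orderOf a := orderOf_pow_dvd _
        have h4 : orderOf (a ^ orderOf (π a)) ∣ Nat.card C := by
          have h5 := orderOf_dvd_natCard (⟨_, h2⟩ : C)
          rwa [Subgroup.orderOf_mk] at h5
        exact Nat.dvd_one.1 (by
          have h5 := Nat.dvd_gcd h3 h4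
          rwa [(hcop a ha).gcd_eq_one] at h5)
      · exact orderOf_map_dvd π a
    rw [h1]
    exact Nat.le_of_dvd (Nat.pos_of_ne_zero C.index_ne_zero_of_finite) (orderOf_dvd_natCard _)
  have hind : orderOf (QuotientGroup.mk' K v * QuotientGroup.mk' K w) ≤ C.index := by
    have h1 : orderOf (QuotientGroup.mk' K v * QuotientGroup.mk' K w) ∣ K.index := orderOf_dvd_natCard _
    exact (Nat.le_of_dvd (Nat.pos_of_ne_zero K.index_ne_zero_of_finite) h1).trans
      (Nat.le_of_dvd (Nat.pos_of_ne_zero C.index_ne_zero_of_finite) (Subgroup.index_dvd_of_le hCK))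
  refine ⟨_, mv_mono (mv_Pl hv hw (hord v hv) (hord w hw) _) ?_, res⟩
  calc (2 * orderOf (QuotientGroup.mk' K v * QuotientGroup.mk' K w) - 1) * C.index
      ≤ (2 * C.index) * C.index := Nat.mul_le_mul_right _ (by omega)
    _ ≤ 2 ^ (C.index + 1) * 2 ^ C.index := by
        apply Nat.mul_le_mul
        · rw [pow_succ']
          exact Nat.mul_le_mul_left _ Nat.lt_two_pow_self.le
        · exact Nat.lt_two_pow_self.le
    _ = 2 ^ (C.index + 1 + C.index) := by rw [← pow_add]
    _ ≤ bdC C.index := by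
        unfold bdC
        exact Nat.pow_le_pow_right (by norm_num) (by omega)

end Pool.Agent.Lib.MP_688fd0_co.SQ6.H22
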